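import Pool.Agent.Helper20.IIC.Stmts

/-! # LIMI: infinite clusters in infinite volume -/

namespace IIC

open Filter Topology Set MeasureTheory
open scoped BigOperators

/-- `x` is connected to a point of norm at least `n`. -/
def limi_R {d : ℕ} (x : Fin d → ℤ) (n : ℕ) : Set (Cfg d) := {ω | ∃ y, n ≤ nrm y ∧ LConn ω x y}

theorem limi_nrm_le_iff {d : ℕ} (x : Fin d → ℤ) (n : ℕ) :
    nrm x ≤ n ↔ ∀ i, (x i).natAbs ≤ n := by
  unfold nrm
  rw [Finset.sup_le_iff]
  simp

theorem limi_fin {d : ℕ} (n : ℕ) : {y : Fin d → ℤ | nrm y ≤ n}.Finite := by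
  refine (Set.finite_Icc (fun _ => -(n : ℤ)) (fun _ => (n : ℤ))).subset ?_
  intro y hy
  have hy' : nrm y ≤ n := hy
  rw [limi_nrm_le_iff] at hy'
  constructor
  · intro i
    have := hy' i
    simp only
    omega
  · intro i
    have := hy' i
    simp only
    omega

theorem limi_step {d : ℕ} {T : Set (Ed d)} {u v : Fin d → ℤ} (h : Step le T u v) :
    nrm v ≤ nrm u + 1 := by
  obtain ⟨e, _, he⟩ := h
  have hadj : (lat d).Adj u v := by
    have h2 := e.2
    have h3 : (e : Sym2 (Fin d → ℤ)) = s(u, v) := he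
    rw [h3] at h2
    exact h2
  have hsum : ∑ i, |u i - v i| = 1 := hadj
  rw [limi_nrm_le_iff]
  intro i
  have h1 : |u i - v i| ≤ 1 := by
    rw [← hsum]
    exact Finset.single_le_sum (f := fun i => |u i - v i|) (fun j _ => abs_nonneg _)
      (Finset.mem_univ i)
  have h2 : (u i).natAbs ≤ nrm u := (limi_nrm_le_iff u (nrm u)).1 le_rfl i
  rw [abs_le] at h1
  omega

/-- The edges with both endpoints in the box of radius `n`. -/
def limi_E (d n : ℕ) : Set (Ed d) := {e | ∀ v ∈ le e, nrm v ≤ n}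

theorem limi_E_fin (d n : ℕ) : (limi_E d n).Finite := by
  have h1 : (((limi_fin (d := d) n).toFinset.sym2 : Finset (Sym2 (Fin d → ℤ))) :
      Set (Sym2 (Fin d → ℤ))).Finite := Finset.finite_toSet _
  refine Set.Finite.of_finite_image (f := fun e : Ed d => (e : Sym2 (Fin d → ℤ)))
    (h1.subset ?_) ?_
  · rintro _ ⟨e, he, rfl⟩
    rw [Finset.mem_coe, Finset.mem_sym2_iff]
    intro v hv
    rw [Set.Finite.mem_toFinset]
    exact he v hv
  · intro a _ b _ hab
    exact Subtype.ext hab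

theorem limi_conn_mono {V E : Type} {ends : E → Sym2 V} {S T : Set E} (h : S ⊆ T) {x y : V}
    (hc : Conn ends S x y) : Conn ends T x y := by
  refine Relation.ReflTransGen.mono ?_ _ _ hc
  rintro a b ⟨e, he, hab⟩
  exact ⟨e, h he, hab⟩

/-- Exit from the box. -/
theorem limi_exit {d : ℕ} (T : Set (Ed d)) (x y : Fin d → ℤ) (n : ℕ) (hx : nrm x ≤ n)
    (hc : Conn le T x y) :
    (nrm y < n ∧ Conn le (T ∩ limi_E d n) x y) ∨
      ∃ z, nrm z = n ∧ Conn le (T ∩ limi_E d n) x z := by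
  induction hc with
  | refl =>
    rcases hx.lt_or_eq with h | h
    · exact Or.inl ⟨h, Relation.ReflTransGen.refl⟩
    · exact Or.inr ⟨x, h, Relation.ReflTransGen.refl⟩
  | tail hab hbc ih =>
    rename_i b c
    rcases ih with ⟨h1, h2⟩ | h
    · have h3 := limi_step hbc
      have h4 : Conn le (T ∩ limi_E d n) x c := by
        refine Relation.ReflTransGen.tail h2 ?_
        obtain ⟨e, he, hebc⟩ := hbc
        refine ⟨e, ⟨he, ?_⟩, hebc⟩
        intro v hv
        rw [hebc, Sym2.mem_iff] at hv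
        rcases hv with rfl | rfl
        · omega
        · omega
      rcases lt_or_ge (nrm c) n with h5 | h5
      · exact Or.inl ⟨h5, h4⟩
      · exact Or.inr ⟨c, by omega, h4⟩
    · exact Or.inr h

theorem limi_R_cyl {d : ℕ} (x : Fin d → ℤ) (n : ℕ) : IsCyl (limi_R x n) := by
  rcases le_total n (nrm x) with h | h
  · refine ⟨∅, fun ω ω' _ => ?_⟩
    constructor
    · intro _
      exact ⟨x, h, Relation.ReflTransGen.refl⟩
    · intro _
      exact ⟨x, h, Relation.ReflTransGen.refl⟩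
  · refine ⟨(limi_E_fin d n).toFinset, ?_⟩
    have key : ∀ ω ω' : Cfg d, (∀ e ∈ (limi_E_fin d n).toFinset, ω e = ω' e) →
        ω ∈ limi_R x n → ω' ∈ limi_R x n := by
      rintro ω ω' hω ⟨y, hy, hc⟩
      rcases limi_exit _ x y n h hc with ⟨h1, _⟩ | ⟨z, hz, hcz⟩
      · omega
      · refine ⟨z, hz.ge, limi_conn_mono ?_ hcz⟩
        rintro e ⟨he1, he2⟩
        have h3 := hω e (by rw [Set.Finite.mem_toFinset]; exact he2)
        change ω' e = true
        rw [← h3]
        exact he1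
    intro ω ω' hω
    exact ⟨key ω ω' hω, key ω' ω fun e he => (hω e he).symm⟩

theorem limi_R_upper {d : ℕ} (x : Fin d → ℤ) (n : ℕ) : IsUpperSet (limi_R x n) := by
  rintro ω ω' hω ⟨y, hy, hc⟩
  refine ⟨y, hy, limi_conn_mono ?_ hc⟩
  intro e he
  have h1 : ω e = true := he
  have h2 := hω e
  rw [h1] at h2
  change ω' e = true
  exact top_le_iff.1 h2

theorem limi_IN_sub {d : ℕ} (x : Fin d → ℤ) (n : ℕ) : IN x ⊆ limi_R x n := by
  intro ω hω
  have h1 : {y | LConn ω x y}.Infinite := hω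
  by_contra hcon
  refine h1 ((limi_fin n).subset ?_)
  intro y hy
  by_contra h2
  have h3 : ¬ nrm y ≤ n := h2
  exact hcon ⟨y, by omega, hy⟩

theorem limi_iInter {d : ℕ} (x : Fin d → ℤ) : IN x = ⋂ n, limi_R x n := by
  refine Subset.antisymm (Set.subset_iInter fun n => limi_IN_sub x n) ?_
  intro ω hω
  rw [Set.mem_iInter] at hω
  change {y | LConn ω x y}.Infinite
  intro hfin
  obtain ⟨N, hN⟩ := (hfin.image nrm).bddAbove
  obtain ⟨y, hy1, hy2⟩ := hω (N + 1)
  have := hN ⟨y, hy2, rfl⟩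
  omega

theorem limi_anti {d : ℕ} (x : Fin d → ℤ) : Antitone (limi_R x) := by
  rintro m n hmn ω ⟨y, hy, hc⟩
  exact ⟨y, le_trans hmn hy, hc⟩

theorem limi_cyl_inter {d : ℕ} {A B : Set (Cfg d)} (hA : IsCyl A) (hB : IsCyl B) :
    IsCyl (A ∩ B) := by
  classical
  obtain ⟨F, hF⟩ := hA
  obtain ⟨G, hG⟩ := hB
  refine ⟨F ∪ G, fun ω ω' h => ?_⟩
  have h1 := hF ω ω' fun e he => h e (Finset.mem_union_left _ he)
  have h2 := hG ω ω' fun e he => h e (Finset.mem_union_right _ he)
  rw [Set.mem_inter_iff, Set.mem_inter_iff, h1, h2]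

theorem limi_UF_cyl {d : ℕ} (K : Finset (Ed d)) : IsCyl (UF K) := by
  refine ⟨K, fun ω ω' h => ?_⟩
  constructor
  · intro hω e he
    rw [← h e he]
    exact hω e he
  · intro hω e he
    rw [h e he]
    exact hω e he

theorem st_LIMI (hLIM : ST_LIM) (hMEAS : ST_MEAS) (hLATC : ST_LATC) (hCONT : ST_CONT)
    (hUPS : ST_UPS) : ST_LIMI := by
  intro d hd β hβ μ hμ K x
  have hprob := hμ.1
  have hlim := (hLIM d β hβ).1
  have hUF : IsUpperSet (UF K) := (hUPS d x x K).2.2
  have hIN : IsUpperSet (IN x) := (hUPS d x x K).2.1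
  have hmeas := hMEAS d
  have hcyl : ∀ n, IsCyl (UF K ∩ limi_R x n) := fun n =>
    limi_cyl_inter (limi_UF_cyl K) (limi_R_cyl x n)
  have hup : ∀ n, IsUpperSet (UF K ∩ limi_R x n) := fun n => hUF.inter (limi_R_upper x n)
  have hupA : IsUpperSet (UF K ∩ IN x) := hUF.inter hIN
  -- value on the cylinder events
  have hval : ∀ n, μ.real (UF K ∩ limi_R x n) = mW β (UF K ∩ limi_R x n) := fun n =>
    tendsto_nhds_unique (hμ.2 _ (hcyl n)) (hlim _ (hup n)).1
  -- the limit in n
  have hconv : Tendsto (fun n => μ.real (UF K ∩ limi_R x n)) atTop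
      (𝓝 (μ.real (UF K ∩ IN x))) := by
    have h1 : UF K ∩ IN x = ⋂ n, (UF K ∩ limi_R x n) := by
      rw [limi_iInter, Set.inter_iInter]
    rw [h1]
    have h2 : Tendsto (fun n => μ (UF K ∩ limi_R x n)) atTop
        (𝓝 (μ (⋂ n, (UF K ∩ limi_R x n)))) := by
      refine tendsto_measure_iInter_atTop (fun n => ?_) ?_ ⟨0, measure_ne_top _ _⟩
      · exact (hmeas.1 _ (hcyl n)).nullMeasurableSet
      · intro m n hmn
        exact Set.inter_subset_inter_right _ (limi_anti x hmn)
    exact (ENNReal.tendsto_toReal (measure_ne_top _ _)).comp h2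
  refine le_antisymm ?_ ?_
  · -- μ A ≤ PW Λ A for all Λ
    unfold mW
    refine le_ciInf fun Λ => ?_
    -- choose n
    have hex : ∀ T : Finset (Ed d), ∃ n : ℕ, ∀ x y : Fin d → ℤ, n ≤ nrm x → n ≤ nrm y →
        LConn (exw Λ T) x y := fun T => (hLATC d hd).2.1 Λ T
    choose N hN using hex
    obtain ⟨M, hM⟩ : ∃ M, ∀ T ⊆ Λ, N T ≤ M :=
      ⟨Λ.powerset.sup N, fun T hT => Finset.le_sup (f := N) (Finset.mem_powerset.2 hT)⟩
    have h1 : PW β Λ (UF K ∩ IN x) = PW β Λ (UF K ∩ limi_R x M) := by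
      refine ((hCONT d Λ).2 β hβ).2.2.2.2 _ _ fun T hT => ?_
      constructor
      · rintro ⟨h2, h3⟩
        exact ⟨h2, limi_IN_sub x M h3⟩
      · rintro ⟨h2, y, hy, hc⟩
        refine ⟨h2, ?_⟩
        change {z | LConn (exw Λ T) x z}.Infinite
        have hinf : ({z : Fin d → ℤ | nrm z ≤ M}ᶜ).Infinite := by
          have : Nonempty (Fin d) := ⟨⟨0, by omega⟩⟩
          have : Infinite (Fin d → ℤ) := Pi.infinite_of_right
          exact (limi_fin M).infinite_compl
        refine hinf.mono ?_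
        intro z hz
        have hz' : ¬ nrm z ≤ M := hz
        have h4 := hM T hT
        exact Relation.ReflTransGen.trans hc (hN T y z (by omega) (by omega))
    rw [h1]
    refine le_trans ?_ ((hlim _ (hup M)).2.2.2 Λ)
    rw [← hval M]
    refine measureReal_mono ?_ (measure_ne_top _ _)
    exact Set.inter_subset_inter_right _ (limi_IN_sub x M)
  · refine ge_of_tendsto hconv (Filter.Eventually.of_forall fun n => ?_)
    rw [hval n]
    refine le_of_tendsto_of_tendsto (hlim _ hupA).1 (hlim _ (hup n)).1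
      (Filter.Eventually.of_forall fun Λ => ?_)
    exact ((hCONT d Λ).2 β hβ).2.2.1 _ _ (Set.inter_subset_inter_right _ (limi_IN_sub x n))

end IIC
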